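import Pool.Agent.WR3.StmtsB

/-! Row RTY of squad WR3: `t` steps back in a tree. -/

set_option autoImplicit false

namespace Pool.Agent.WR3.H7

open Pool.Agent.WIR Pool.Agent.WR2 Pool.Agent.WR3
open scoped BigOperators

theorem od_succ' (t b : ℕ) : od (t + 1) b = od t b + (if T^[t] b % 2 = 1 then 1 else 0) := by
  unfold od
  rw [Finset.range_add_one, Finset.filter_insert]
  split_ifs with h
  · rw [Finset.card_insert_of_notMem]
    simp
  · rfl

theorem od_add' (s t b : ℕ) : od (s + t) b = od s b + od t (T^[s] b) := by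
  induction t with
  | zero => simp [od]
  | succ t ih =>
    rw [← add_assoc, od_succ', ih, od_succ', ← Function.iterate_add_apply, add_comm t s, add_assoc]

theorem T_pos {b : ℕ} (hb : 0 < b) : 0 < T b := by
  unfold T
  split_ifs with h <;> omega

theorem T_le (b : ℕ) : T b ≤ 2 * b := by
  unfold T
  split_ifs with h <;> omega

theorem iter_pos {b : ℕ} (hb : 0 < b) (t : ℕ) : 0 < T^[t] b := by
  induction t with
  | zero => simpa using hb
  | succ t ih =>
    rw [Function.iterate_succ_apply']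
    exact T_pos ih

/-- at most `2^τ` positive integers have a given `τ`-th iterate. -/
theorem card_pre (a : ℕ) : ∀ (τ M : ℕ),
    ((Finset.Icc 1 M).filter (fun b => T^[τ] b = a)).card ≤ 2 ^ τ := by
  intro τ
  induction τ with
  | zero =>
    intro M
    rw [pow_zero, Finset.card_le_one]
    intro b hb c hc
    rw [Finset.mem_filter] at hb hc
    have h1 := hb.2
    have h2 := hc.2
    simp only [Function.iterate_zero, id_eq] at h1 h2
    rw [h1, h2]
  | succ τ ih =>
    intro M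
    have h1 : ((Finset.Icc 1 M).filter (fun b => T^[τ + 1] b = a)).card
        ≤ 2 * ((Finset.Icc 1 (2 * M)).filter (fun b => T^[τ] b = a)).card := by
      refine Finset.card_le_mul_card_image_of_maps_to (f := T) ?_ 2 ?_
      · intro b hb
        rw [Finset.mem_filter, Finset.mem_Icc] at hb ⊢
        refine ⟨⟨T_pos hb.1.1, le_trans (T_le b) (by omega)⟩, ?_⟩
        rw [← Function.iterate_succ_apply]
        exact hb.2
      · intro c _
        have h2 : (((Finset.Icc 1 M).filter (fun b => T^[τ + 1] b = a)).filter (fun b => T b = c))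
            ⊆ {2 * c, (2 * c - 1) / 3} := by
          intro b hb
          rw [Finset.mem_filter] at hb
          have h3 := hb.2
          rw [Finset.mem_insert, Finset.mem_singleton]
          unfold T at h3
          split_ifs at h3 with h <;> omega
        exact le_trans (Finset.card_le_card h2) Finset.card_le_two
    calc ((Finset.Icc 1 M).filter (fun b => T^[τ + 1] b = a)).card
        ≤ 2 * ((Finset.Icc 1 (2 * M)).filter (fun b => T^[τ] b = a)).card := h1
      _ ≤ 2 * 2 ^ τ := by gcongr; exact ih _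
      _ = 2 ^ (τ + 1) := by ring

/-- the set of the counted times. -/
def Z (a : ℕ) (y : ℝ) (c : ℕ) : Set ℕ := {τ : ℕ | T^[τ] c = a ∧ (2 : ℝ) ^ τ ≤ y * 3 ^ od τ c}

theorem mu_eq (a : ℕ) (y : ℝ) (c : ℕ) : mu a y c = ((Z a y c).ncard : ℝ) := rfl

/-- the times beyond `t`. -/
theorem Z_shift (a t : ℕ) (x : ℝ) (b : ℕ) :
    (Z a x b ∩ {τ | t ≤ τ}) = (fun τ => t + τ) '' (Z a (3 ^ od t b * x / 2 ^ t) (T^[t] b)) := by
  have key : ∀ τ : ℕ, (t + τ ∈ Z a x b ↔ τ ∈ Z a (3 ^ od t b * x / 2 ^ t) (T^[t] b)) := by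
    intro τ
    unfold Z
    rw [Set.mem_ofPred_eq, Set.mem_ofPred_eq, od_add', add_comm t τ, Function.iterate_add_apply]
    have h2 : (0 : ℝ) < 2 ^ t := by positivity
    have h3 : ((2 : ℝ) ^ (τ + t) ≤ x * 3 ^ (od t b + od τ (T^[t] b))) ↔
        ((2 : ℝ) ^ τ ≤ 3 ^ od t b * x / 2 ^ t * 3 ^ od τ (T^[t] b)) := by
      rw [div_mul_eq_mul_div, le_div_iff₀ h2, pow_add, pow_add]
      constructor
      · intro h
        linarith [h]
      · intro h
        linarith [h]
    rw [h3]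
  ext τ
  constructor
  · rintro ⟨h1, h2⟩
    have h2' : t ≤ τ := h2
    refine ⟨τ - t, ?_, ?_⟩
    · rw [← key, Nat.add_sub_cancel' h2']
      exact h1
    · show t + (τ - t) = τ
      omega
  · rintro ⟨τ', h1, rfl⟩
    refine ⟨(key τ').mpr h1, ?_⟩
    show t ≤ t + τ'
    omega

theorem ncard_shift (a t : ℕ) (x : ℝ) (b : ℕ) :
    (Z a x b ∩ {τ | t ≤ τ}).ncard = (Z a (3 ^ od t b * x / 2 ^ t) (T^[t] b)).ncard := by
  rw [Z_shift]
  refine Set.ncard_image_of_injective _ ?_
  intro u v h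
  have h' : t + u = t + v := h
  omega

open Classical in
theorem rty (hRMU : RmuStmt) (hPRE : PreStmt) : RtyStmt := by
  intro a ha t x hx
  obtain ⟨hfin, hbd, -, -⟩ := hRMU a ha
  obtain ⟨hP1, hP2, hP3, hP4⟩ := hPRE
  have hfin' : ∀ (y : ℝ) (c : ℕ), (Z a y c).Finite := hfin
  -- split of mu
  have hsplit : ∀ b : ℕ, (Z a x b).ncard
      = (Z a x b ∩ {τ | τ < t}).ncard + (Z a x b ∩ {τ | t ≤ τ}).ncard := by
    intro b
    have hd : Disjoint (Z a x b ∩ {τ | τ < t}) (Z a x b ∩ {τ | t ≤ τ}) := by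
      rw [Set.disjoint_left]
      rintro τ ⟨_, h1⟩ ⟨_, h2⟩
      have h1' : τ < t := h1
      have h2' : t ≤ τ := h2
      omega
    rw [← Set.ncard_union_eq hd ((hfin' x b).inter_of_left _) ((hfin' x b).inter_of_left _)]
    congr 1
    ext τ
    constructor
    · intro h
      rcases lt_or_ge τ t with h1 | h1
      · exact Or.inl ⟨h, h1⟩
      · exact Or.inr ⟨h, h1⟩
    · rintro (h | h)
      · exact h.1
      · exact h.1
  set N : ℕ := ⌊(a : ℝ) * x⌋₊ with hN
  have hFR : FR a x = ∑ b ∈ Finset.Icc 1 N, ((Z a x b ∩ {τ | τ < t}).ncard : ℝ)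
      + ∑ b ∈ Finset.Icc 1 N, ((Z a x b ∩ {τ | t ≤ τ}).ncard : ℝ) := by
    unfold FR
    rw [← Finset.sum_add_distrib]
    refine Finset.sum_congr rfl ?_
    intro b _
    rw [mu_eq, hsplit b]
    push_cast
    rfl
  -- part A
  have hA0 : 0 ≤ ∑ b ∈ Finset.Icc 1 N, ((Z a x b ∩ {τ | τ < t}).ncard : ℝ) :=
    Finset.sum_nonneg (fun b _ => Nat.cast_nonneg _)
  have hA : ∑ b ∈ Finset.Icc 1 N, ((Z a x b ∩ {τ | τ < t}).ncard : ℝ) ≤ 2 ^ t := by
    have h1 : ∑ b ∈ Finset.Icc 1 N, (Z a x b ∩ {τ | τ < t}).ncard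
        ≤ ∑ b ∈ Finset.Icc 1 N, ((Finset.range t).filter (fun τ => T^[τ] b = a)).card := by
      refine Finset.sum_le_sum ?_
      intro b _
      rw [← Set.ncard_coe_finset]
      refine Set.ncard_le_ncard ?_ (Finset.finite_toSet _)
      rintro τ ⟨h1, h2⟩
      have h2' : τ < t := h2
      simp only [Finset.coe_filter, Finset.mem_range, Set.mem_ofPred_eq]
      exact ⟨h2', h1.1⟩
    have h2 : ∑ b ∈ Finset.Icc 1 N, ((Finset.range t).filter (fun τ => T^[τ] b = a)).card
        = ∑ τ ∈ Finset.range t, ((Finset.Icc 1 N).filter (fun b => T^[τ] b = a)).card := by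
      simp only [Finset.card_filter]
      exact Finset.sum_comm
    have h3 : ∑ τ ∈ Finset.range t, ((Finset.Icc 1 N).filter (fun b => T^[τ] b = a)).card
        ≤ ∑ τ ∈ Finset.range t, 2 ^ τ := Finset.sum_le_sum (fun τ _ => card_pre a τ N)
    have h4 : ∑ τ ∈ Finset.range t, 2 ^ τ ≤ 2 ^ t := by
      have h5 := Nat.geomSum_eq (m := 2) le_rfl t
      rw [h5]
      simp
    have h6 : ∑ b ∈ Finset.Icc 1 N, (Z a x b ∩ {τ | τ < t}).ncard ≤ 2 ^ t :=
      le_trans h1 (h2 ▸ le_trans h3 h4)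
    exact_mod_cast h6
  -- part B
  have hB : ∑ b ∈ Finset.Icc 1 N, ((Z a x b ∩ {τ | t ≤ τ}).ncard : ℝ) = GS a (mu a) t x := by
    have hGS : GS a (mu a) t x = ∑ q ∈ ((Finset.range (t + 1)).sigma
        (fun l => Finset.Icc 1 ⌊(a : ℝ) * (3 ^ l * x / 2 ^ t)⌋₊)).sigma
        (fun p => Pre t p.1 p.2), ((Z a x q.2 ∩ {τ | t ≤ τ}).ncard : ℝ) := by
      unfold GS
      rw [Finset.sum_sigma, Finset.sum_sigma]
      refine Finset.sum_congr rfl ?_
      intro l _
      refine Finset.sum_congr rfl ?_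
      intro c _
      rw [hP3, Finset.card_eq_sum_ones, Nat.cast_sum, Finset.mul_sum]
      refine Finset.sum_congr rfl ?_
      intro b hb
      have h1 := (hP1 t l c b).mp hb
      rw [Nat.cast_one, mul_one, ncard_shift, h1.2.1, h1.2.2, mu_eq]
    rw [hGS]
    symm
    refine Finset.sum_bij_ne_zero (fun q _ _ => q.2) ?_ ?_ ?_ ?_
    · rintro ⟨⟨l, c⟩, b⟩ h1 h2
      rw [Finset.mem_sigma, Finset.mem_sigma] at h1
      have h3 := (hP1 t l c b).mp h1.2
      have h4 : (Z a x b ∩ {τ | t ≤ τ}).ncard ≠ 0 := by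
        intro h
        apply h2
        simp only [h, Nat.cast_zero]
      obtain ⟨τ, hτ⟩ := Set.nonempty_of_ncard_ne_zero h4
      have h5 := hbd x b τ hτ.1.1 hτ.1.2
      rw [Finset.mem_Icc]
      exact ⟨h5.1, Nat.le_floor h5.2⟩
    · rintro ⟨⟨l, c⟩, b⟩ h1 _ ⟨⟨l', c'⟩, b'⟩ h1' _ h
      rw [Finset.mem_sigma, Finset.mem_sigma] at h1 h1'
      have h3 := (hP1 t l c b).mp h1.2
      have h3' := (hP1 t l' c' b').mp h1'.2
      have hb : b = b' := h
      subst hb
      have hl : l = l' := by rw [← h3.2.2, ← h3'.2.2]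
      have hc : c = c' := by rw [← h3.2.1, ← h3'.2.1]
      subst hl
      subst hc
      rfl
    · intro b hb h2
      have h4 : (Z a x b ∩ {τ | t ≤ τ}).ncard ≠ 0 := by
        intro h
        apply h2
        simp only [h, Nat.cast_zero]
      have hbpos : 0 < b := (Finset.mem_Icc.mp hb).1
      have h5 : (Z a (3 ^ od t b * x / 2 ^ t) (T^[t] b)).ncard ≠ 0 := by
        rw [← ncard_shift]
        exact h4
      obtain ⟨τ, hτ⟩ := Set.nonempty_of_ncard_ne_zero h5
      have h6 := hbd _ _ τ hτ.1 hτ.2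
      have hle : od t b ≤ t := by
        unfold od
        exact le_trans (Finset.card_filter_le _ _) (by simp)
      have hmem : (⟨⟨od t b, T^[t] b⟩, b⟩ : Σ _ : (Σ _ : ℕ, ℕ), ℕ) ∈ ((Finset.range (t + 1)).sigma
          (fun l => Finset.Icc 1 ⌊(a : ℝ) * (3 ^ l * x / 2 ^ t)⌋₊)).sigma
          (fun p => Pre t p.1 p.2) := by
        rw [Finset.mem_sigma, Finset.mem_sigma]
        refine ⟨⟨?_, ?_⟩, ?_⟩
        · exact Finset.mem_range.mpr (Nat.lt_succ_of_le hle)
        · exact Finset.mem_Icc.mpr ⟨h6.1, Nat.le_floor h6.2⟩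
        · exact (hP1 t (od t b) (T^[t] b) b).mpr ⟨hbpos, rfl, rfl⟩
      exact ⟨_, hmem, h2, rfl⟩
    · intro q _ _
      rfl
  rw [hFR, hB, add_sub_cancel_right, abs_of_nonneg hA0]
  exact hA

end Pool.Agent.WR3.H7
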